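import Pool.Agent.Y462.GE.Main
import Pool.Agent.Y462.EI.Parts
import Pool.Agent.Y547.GE.PP
import Pool.Agent.Y833.GE.Inj
import Pool.Agent.Y67.GE.Bo
import Pool.Agent.Y273.GE.Euc

/-!
# `GE_2` over rings with a degree function: the theorems

Owner helper462; helpers 547, 833, 67, 273.
-/

set_option autoImplicit false

namespace Pool.Agent.Y462.GE

open Pool.Agent.Y462.EI
open Pool.Agent.Y110.FJ (ClosedE)

theorem ge2_ (C : ∀ (G : Type) [Group G], Prop) (hC : ClosedE C) (k R : Type) [Field k] [Ring R]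
    [Nontrivial R] [Algebra k R] (deg : R → WithBot ℕ) (hdeg : IsDeg k R deg) (hk : C (U2 k)) :
    C (GE2 k R) :=
  ge2 hC w_ ha_ tla_ qa_ Pool.Agent.Y67.GE.t_bo (Pool.Agent.Y833.GE.t_inj Pool.Agent.Y547.GE.t_pp)
    k R deg hdeg hk

open Polynomial in
theorem gl2_ (C : ∀ (G : Type) [Group G], Prop) (hC : ClosedE C) (k : Type) [Field k]
    (hk : C (U2 k)) : C (U2 k[X]) :=
  gl2 hC w_ ha_ tla_ qa_ Pool.Agent.Y67.GE.t_bo (Pool.Agent.Y833.GE.t_inj Pool.Agent.Y547.GE.t_pp)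
    Pool.Agent.Y273.GE.t_deg Pool.Agent.Y273.GE.t_euc k hk

end Pool.Agent.Y462.GE
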