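import Pool.Agent.Y462.PA.Def
import Mathlib.LinearAlgebra.Matrix.GeneralLinearGroup.Defs

/-!
# The groups `GE_2` over rings with a degree function: definitions and statements

Owner helper462.
-/

set_option autoImplicit false
set_option linter.unusedSectionVars false

namespace Pool.Agent.Y462.GE

open Pool.Agent.Y462.PA (Am)
open Pool.Agent.Y462.SS (Closed)
open Pool.Agent.Y110.FJ (ClosedE)

/-- a degree function on the `k`-algebra `R` -/
structure IsDeg (k R : Type) [Field k] [Ring R] [Algebra k R] (deg : R → WithBot ℕ) : Prop where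
  zero : ∀ x, deg x = ⊥ ↔ x = 0
  mul : ∀ x y, deg (x * y) = deg x + deg y
  add : ∀ x y, deg (x + y) ≤ max (deg x) (deg y)
  const : ∀ x, deg x ≤ 0 ↔ ∃ c : k, x = algebraMap k R c

variable (k R : Type) [Field k] [Ring R] [Algebra k R]

/-- the invertible matrices over `R` -/
abbrev U2 : Type := (Matrix (Fin 2) (Fin 2) R)ˣ

/-- the invertible matrices over `k` as matrices over `R` -/
noncomputable def sc : (Matrix (Fin 2) (Fin 2) k)ˣ →* U2 R :=
  Units.map ((algebraMap k R).mapMatrix : Matrix (Fin 2) (Fin 2) k →+* _).toMonoidHom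

/-- the group of the matrices `(a, v; 0, d)` with `a, d` in `k` and `v` in `R` -/
@[ext] structure Bo where
  a : kˣ
  d : kˣ
  v : R

namespace Bo

variable {k R}

instance : Mul (Bo k R) :=
  ⟨fun g h => ⟨g.a * h.a, g.d * h.d, (g.a : k) • h.v + (h.d : k) • g.v⟩⟩
instance : One (Bo k R) := ⟨⟨1, 1, 0⟩⟩
instance : Inv (Bo k R) :=
  ⟨fun g => ⟨g.a⁻¹, g.d⁻¹, -(((g.a⁻¹ : kˣ) : k) • ((g.d⁻¹ : kˣ) : k) • g.v)⟩⟩

@[simp] theorem mul_a (g h : Bo k R) : (g * h).a = g.a * h.a := rfl
@[simp] theorem mul_d (g h : Bo k R) : (g * h).d = g.d * h.d := rfl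
@[simp] theorem mul_v (g h : Bo k R) : (g * h).v = (g.a : k) • h.v + (h.d : k) • g.v := rfl
@[simp] theorem one_a : (1 : Bo k R).a = 1 := rfl
@[simp] theorem one_d : (1 : Bo k R).d = 1 := rfl
@[simp] theorem one_v : (1 : Bo k R).v = 0 := rfl
@[simp] theorem inv_a (g : Bo k R) : (g⁻¹).a = g.a⁻¹ := rfl
@[simp] theorem inv_d (g : Bo k R) : (g⁻¹).d = g.d⁻¹ := rfl
@[simp] theorem inv_v (g : Bo k R) :
    (g⁻¹).v = -(((g.a⁻¹ : kˣ) : k) • ((g.d⁻¹ : kˣ) : k) • g.v) := rfl

instance : Group (Bo k R) :=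
  Group.ofLeftAxioms
    (fun a b c => by
      ext
      · simp [mul_assoc]
      · simp [mul_assoc]
      · simp only [mul_v, mul_a, mul_d, Units.val_mul, smul_add, smul_smul]
        rw [add_assoc]
        congr 2
        · rw [mul_comm]
        · rw [mul_comm])
    (fun a => by
      ext
      · simp
      · simp
      · simp)
    (fun a => by
      ext
      · simp
      · simp
      · simp only [mul_v, inv_a, inv_v, one_v, smul_neg]
        rw [smul_comm, smul_smul (a.d : k), Units.mul_inv, one_smul, add_neg_cancel])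

end Bo

/-- the matrices `(a, v; 0, d)` -/
noncomputable def mt : Bo k R →* U2 R where
  toFun g :=
    { val := !![algebraMap k R g.a, g.v; 0, algebraMap k R g.d]
      inv := !![algebraMap k R (g⁻¹).a, (g⁻¹).v; 0, algebraMap k R (g⁻¹).d]
      val_inv := by
        ext i j
        fin_cases i <;> fin_cases j <;>
          simp [Matrix.mul_apply, Fin.sum_univ_two, ← map_mul, Algebra.smul_def]
        rw [← mul_assoc, ← mul_assoc, ← map_mul, mul_inv_cancel₀ (Units.ne_zero g.a), map_one,
          one_mul, ← Algebra.commutes, neg_add_cancel]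
      inv_val := by
        ext i j
        fin_cases i <;> fin_cases j <;>
          simp [Matrix.mul_apply, Fin.sum_univ_two, ← map_mul, Algebra.smul_def]
        rw [mul_assoc (algebraMap k R (g.a : k)⁻¹), mul_assoc (algebraMap k R (g.d : k)⁻¹) g.v,
          ← Algebra.commutes (g.d : k) g.v, ← mul_assoc (algebraMap k R (g.d : k)⁻¹), ← map_mul,
          inv_mul_cancel₀ (Units.ne_zero g.d), map_one, one_mul, add_neg_cancel] }
  map_one' := by
    apply Units.ext
    ext i j
    fin_cases i <;> fin_cases j <;> simp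
  map_mul' g h := by
    apply Units.ext
    ext i j
    fin_cases i <;> fin_cases j <;>
      simp [Matrix.mul_apply, Fin.sum_univ_two, Algebra.smul_def]
    exact Algebra.commutes _ _

/-- the group generated by the matrices over `k` and the elementary matrices -/
noncomputable def GE2 : Subgroup (U2 R) := (sc k R).range ⊔ (mt k R).range

/-- functoriality of `Bo` for linear maps -/
def Bo.map {k R S : Type} [Field k] [Ring R] [Algebra k R] [Ring S] [Algebra k S]
    (l : R →ₗ[k] S) : Bo k R →* Bo k S where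
  toFun g := ⟨g.a, g.d, l g.v⟩
  map_one' := by ext <;> simp
  map_mul' g h := by ext <;> simp

/-- **GE-PP** ping-pong for amalgamated products -/
def S_PP : Prop := ∀ (K A B Ω : Type) [Group K] [Group A] [Group B] (α : K →* A) (β : K →* B)
  (f : Am α β →* Equiv.Perm Ω) (XA XB : Set Ω) (D : Ω → WithBot ℕ),
  Disjoint XA XB → XA.Nonempty → XB.Nonempty →
  (∀ a, a ∉ α.range → ∀ v ∈ XB, f (Am.inl α β a) v ∈ XA ∧ D v ≤ D (f (Am.inl α β a) v)) →
  (∀ b, b ∉ β.range → ∀ v ∈ XA, f (Am.inr α β b) v ∈ XB ∧ D v < D (f (Am.inr α β b) v)) →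
  (∀ c, ∀ v ∈ XA, f (Am.inl α β (α c)) v ∈ XA ∧ D (f (Am.inl α β (α c)) v) = D v) →
  (∀ c, ∀ v ∈ XB, f (Am.inl α β (α c)) v ∈ XB ∧ D (f (Am.inl α β (α c)) v) = D v) →
  (∀ c, f (Am.inl α β (α c)) = 1 → c = 1) → Function.Injective f

/-- the amalgamated product -/
abbrev GAm : Type :=
  Am (mt k k) (Bo.map (k := k) (Algebra.linearMap k R))

/-- **GE-INJ** the amalgamated product embeds in the matrices (from `S_PP`) -/
def S_INJ : Prop := ∀ (k R : Type) [Field k] [Ring R] [Nontrivial R] [Algebra k R]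
  (deg : R → WithBot ℕ),
  IsDeg k R deg → ∃ j : GAm k R →* U2 R, Function.Injective j ∧
    (∀ g, j (Am.inl _ _ g) = sc k R g) ∧ ∀ g, j (Am.inr _ _ g) = mt k R g

/-- **GE-BO** the triangular matrices are in the class -/
def S_BO : Prop := ∀ C : ∀ (G : Type) [Group G], Prop, Closed C →
  ∀ (k R : Type) [Field k] [Ring R] [Algebra k R], C (U2 k) → C (Bo k R)

open Polynomial in
/-- **GE-EUC** polynomial rings -/
def S_EUC : Prop := ∀ (k : Type) [Field k], GE2 k k[X] = ⊤

open Polynomial in
/-- **GE-DEG** the degree of polynomials -/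
def S_DEG : Prop := ∀ (k : Type) [Field k], IsDeg k k[X] Polynomial.degree

end Pool.Agent.Y462.GE
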