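import Pool.Agent.Y462.EI.Main
import Pool.Agent.Y462.GE.Stm

/-!
# `GE_2` over rings with a degree function: assembly

Owner helper462.
-/

set_option autoImplicit false

namespace Pool.Agent.Y462.GE

open Pool.Agent.Y462.SS (Wr Closed)
open Pool.Agent.Y462.PA (Am S_TLA)
open Pool.Agent.Y462.EI (S_W S_HA S_QA edge)
open Pool.Agent.Y110.FJ (ClosedE)

variable {C : ∀ (G : Type) [Group G], Prop}

theorem mt_inj (k R : Type) [Field k] [Ring R] [Algebra k R] [Nontrivial R] :
    Function.Injective (mt k R) := by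
  intro g h hgh
  have h1 : (mt k R g).1 = (mt k R h).1 := congrArg Units.val hgh
  have h2 := congrFun (congrFun h1 0) 0
  have h3 := congrFun (congrFun h1 0) 1
  have h4 := congrFun (congrFun h1 1) 1
  have i := (algebraMap k R).injective
  apply Bo.ext
  · exact Units.ext (i h2)
  · exact Units.ext (i h4)
  · exact h3

/-- the amalgamated product is in the class -/
theorem gam (hC : ClosedE C) (hW : S_W) (hHA : S_HA) (hTLA : S_TLA) (hQA : S_QA) (hBO : S_BO)
    (k R : Type) [Field k] [Ring R] [Nontrivial R] [Algebra k R] (hk : C (U2 k)) :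
    C (GAm k R) := by
  obtain ⟨l, hl⟩ := LinearMap.exists_leftInverse_of_injective (Algebra.linearMap k R)
    (LinearMap.ker_eq_bot.2 (algebraMap k R).injective)
  refine edge (mt k k) (Bo.map (k := k) (Algebra.linearMap k R)) (MonoidHom.id (U2 k))
    ((mt k k).comp (Bo.map l)) hC hW hHA hTLA hQA hk hk (hBO C hC.base k R hk) ?_ ?_
  · intro c
    have h1 : Bo.map l (Bo.map (k := k) (Algebra.linearMap k R) c) = c := by
      apply Bo.ext
      · rfl
      · rfl
      · exact LinearMap.congr_fun hl c.v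
    rw [MonoidHom.comp_apply, h1]
    rfl
  · exact mt_inj k k

/-- **`GE_2` over rings with a degree function** -/
theorem ge2 (hC : ClosedE C) (hW : S_W) (hHA : S_HA) (hTLA : S_TLA) (hQA : S_QA) (hBO : S_BO)
    (hINJ : S_INJ) (k R : Type) [Field k] [Ring R] [Nontrivial R] [Algebra k R]
    (deg : R → WithBot ℕ) (hdeg : IsDeg k R deg) (hk : C (U2 k)) : C (GE2 k R) := by
  obtain ⟨j, hj, hj1, hj2⟩ := hINJ k R deg hdeg
  have h1 : GE2 k R ≤ j.range := by
    rw [GE2, sup_le_iff]
    constructor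
    · rintro _ ⟨g, rfl⟩
      exact ⟨_, hj1 g⟩
    · rintro _ ⟨g, rfl⟩
      exact ⟨_, hj2 g⟩
  refine hC.base.of_injective _ _
    ((MonoidHom.ofInjective hj).symm.toMonoidHom.comp (Subgroup.inclusion h1)) ?_
    (gam hC hW hHA hTLA hQA hBO k R hk)
  exact (MonoidHom.ofInjective hj).symm.injective.comp (Subgroup.inclusion_injective h1)

open Polynomial in
/-- **`GL_2` over polynomial rings** -/
theorem gl2 (hC : ClosedE C) (hW : S_W) (hHA : S_HA) (hTLA : S_TLA) (hQA : S_QA) (hBO : S_BO)
    (hINJ : S_INJ) (hDEG : S_DEG) (hEUC : S_EUC) (k : Type) [Field k] (hk : C (U2 k)) :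
    C (U2 k[X]) := by
  have h1 := ge2 hC hW hHA hTLA hQA hBO hINJ k k[X] Polynomial.degree (hDEG k) hk
  rw [hEUC k] at h1
  refine hC.base.of_injective _ _ (Subgroup.topEquiv (G := U2 k[X])).symm.toMonoidHom ?_ h1
  exact (Subgroup.topEquiv (G := U2 k[X])).symm.injective

end Pool.Agent.Y462.GE
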